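import Pool.Agent.Helper67.NX2.DefsB

/-!
# NX2-B14: the local theorem

`local_thm_of`: the theorem on the integers (thmP, stated as `ThmP`) implies the theorem over
residues.
-/

set_option autoImplicit false

open Finset
open scoped BigOperators ComplexConjugate

namespace Pool.Agent.Helper67.NX2

open Pool.Agent.Helper57.NX

noncomputable section

/-- the conclusion of `thmP` (Part A) -/
def ThmP (s : ℕ) (d : Fin (s + 1) → ℕ) : Prop := ∀ ε : ℝ, 0 < ε →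
    ∃ x0 : ℝ, 0 < x0 ∧ ∃ C : ℕ, ∃ σ : ℝ, 0 < σ ∧ ∃ D0 : ℝ,
    ∀ (D : ℝ) (lam u T Z : ℕ), D0 ≤ D → D ≤ u → (u : ℝ) + T ≤ 2 * D → D ^ (1 - x0) ≤ T →
    1 ≤ lam → (∀ i, (lam * (3 * D)) ^ (d i) ≤ Z) →
    ∀ δ : ℝ, D ^ (-σ) ≤ δ → δ ≤ 1 / 2 → (lam : ℝ) ≤ δ⁻¹ →
    ∀ (f0 : ℤ → ℂ) (f : Fin (s + 1) → ℤ → ℂ), (∀ x, ‖f0 x‖ ≤ 1) → (∀ i x, ‖f i x‖ ≤ 1) →
    (∀ x, (x < 0 ∨ (Z : ℤ) ≤ x) → f0 x = 0 ∧ ∀ i, f i x = 0) →
    δ * Z ≤ ‖𝔼 k ∈ Ico u (u + T), ∑ x ∈ range Z, f0 x * ∏ i, f i (x + ((lam * k) ^ (d i) : ℕ))‖ →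
    ∃ q : ℕ, 1 ≤ q ∧ (q : ℝ) ≤ δ⁻¹ ^ C ∧
      (∀ L : ℕ, 1 ≤ L → (L : ℝ) * q ≤ D ^ (d 0 - ε) →
        δ ^ C * Z ≤ ∑ x ∈ range Z, ‖𝔼 a ∈ range L, f0 (x + (q * a : ℕ))‖) ∧
      (∀ i, ∀ L : ℕ, 1 ≤ L → (L : ℝ) * q ≤ D ^ (d i - ε) →
        δ ^ C * Z ≤ ∑ x ∈ range Z, ‖𝔼 a ∈ range L, f i (x + (q * a : ℕ))‖)

/-- extension by zero of a periodic function -/
private def lex {M : ℕ} (Z : ℕ) (φ : ZMod M → ℝ) (x : ℤ) : ℝ :=
  if 0 ≤ x ∧ x < Z then φ (x : ZMod M) else 0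

private lemma lex_nat_lt {M Z : ℕ} (φ : ZMod M → ℝ) {y : ℕ} (hy : y < Z) :
    lex Z φ (y : ℤ) = φ (y : ZMod M) := by
  unfold lex
  rw [if_pos ⟨by positivity, by exact_mod_cast hy⟩]
  simp

private lemma lex_nat_ge {M Z : ℕ} (φ : ZMod M → ℝ) {y : ℕ} (hy : Z ≤ y) :
    lex Z φ (y : ℤ) = 0 := by
  unfold lex
  rw [if_neg]
  push Not
  intro _
  exact_mod_cast hy

private lemma lex_abs {M Z : ℕ} (φ : ZMod M → ℝ) (hφ : ∀ x, |φ x| ≤ 1) (x : ℤ) :
    |lex Z φ x| ≤ 1 := by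
  unfold lex
  split_ifs
  · exact hφ _
  · simp

private lemma sum_range_mul {M : ℕ} [NeZero M] (m : ℕ) (g : ZMod M → ℝ) :
    ∑ x ∈ range (M * m), g (x : ZMod M) = m * ∑ ρ : ZMod M, g ρ := by
  induction m with
  | zero => simp
  | succ m ih =>
    rw [Nat.mul_succ, Finset.sum_range_add, ih]
    have h1 : ∑ x ∈ range M, g ((M * m + x : ℕ) : ZMod M) = ∑ ρ : ZMod M, g ρ := by
      have h2 : ∀ x ∈ range M, g ((M * m + x : ℕ) : ZMod M) = g (x : ZMod M) := by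
        intro x _
        congr 1
        push_cast
        simp
      rw [Finset.sum_congr rfl h2]
      refine Finset.sum_bij' (fun x _ => (x : ZMod M)) (fun ρ _ => ρ.val) ?_ ?_ ?_ ?_ ?_
      · intro x _; exact mem_univ _
      · intro ρ _; exact mem_range.2 (ZMod.val_lt ρ)
      · intro x hx; exact ZMod.val_cast_of_lt (mem_range.1 hx)
      · intro ρ _; exact ZMod.natCast_zmod_val ρ
      · intro x _; rfl
    rw [h1]
    push_cast
    ring

private lemma expect_Ico_mul {M : ℕ} [NeZero M] {t : ℕ} (ht : 1 ≤ t) (g : ZMod M → ℝ) :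
    𝔼 k ∈ Ico (M * t) (M * t + M * t), g (k : ZMod M) = 𝔼 κ : ZMod M, g κ := by
  have hM : 0 < M := Nat.pos_of_ne_zero (NeZero.ne M)
  rw [Finset.expect_eq_sum_div_card, Finset.expect_eq_sum_div_card, Nat.card_Ico,
    Finset.card_univ, ZMod.card]
  have h1 : ∑ k ∈ Ico (M * t) (M * t + M * t), g (k : ZMod M)
      = ∑ k ∈ range (M * t), g (k : ZMod M) := by
    rw [Finset.sum_Ico_eq_sum_range]
    simp only [Nat.add_sub_cancel_left]
    refine Finset.sum_congr rfl ?_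
    intro k _
    congr 1
    push_cast
    simp
  rw [h1, sum_range_mul, Nat.add_sub_cancel_left]
  have hM' : (M : ℝ) ≠ 0 := by exact_mod_cast hM.ne'
  have ht' : (t : ℝ) ≠ 0 := by exact_mod_cast (by omega : t ≠ 0)
  push_cast
  field_simp

/-- counting: functions that agree below `Z - E` -/
private lemma sum_close {Z E : ℕ} (u v : ℕ → ℝ) (h1 : ∀ x, x < Z → x + E < Z → u x = v x)
    (h2 : ∀ x, x < Z → |u x - v x| ≤ 1) :
    |∑ x ∈ range Z, u x - ∑ x ∈ range Z, v x| ≤ E := by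
  rw [← Finset.sum_sub_distrib]
  refine (Finset.abs_sum_le_sum_abs _ _).trans ?_
  have h3 : ∀ x ∈ range Z, |u x - v x| ≤ if Z ≤ x + E then (1 : ℝ) else 0 := by
    intro x hx
    rw [mem_range] at hx
    split_ifs with h
    · exact h2 x hx
    · rw [h1 x hx (by omega)]
      simp
  refine (Finset.sum_le_sum h3).trans ?_
  rw [← Finset.sum_filter, Finset.sum_const, nsmul_eq_mul, mul_one]
  have h4 : (range Z).filter (fun x => Z ≤ x + E) ⊆ Ico (Z - E) Z := by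
    intro x hx
    rw [mem_filter, mem_range] at hx
    rw [mem_Ico]
    omega
  have h5 := Finset.card_le_card h4
  rw [Nat.card_Ico] at h5
  have h6 : ((range Z).filter (fun x => Z ≤ x + E)).card ≤ E := by omega
  exact_mod_cast h6

private lemma abs_prod_le_one {ι : Type*} (S : Finset ι) (g : ι → ℝ) (h : ∀ i ∈ S, |g i| ≤ 1) :
    |∏ i ∈ S, g i| ≤ 1 := by
  rw [Finset.abs_prod]
  exact Finset.prod_le_one (fun i _ => abs_nonneg _) h

/-- the form over the integers of the extensions by zero is close to the form over residues -/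
private lemma form_close {s : ℕ} (d : Fin (s + 1) → ℕ) (K M t E m : ℕ) [NeZero M] (ht : 1 ≤ t)
    (hm : 1 ≤ m) (φ : Option (Fin (s + 1)) → ZMod M → ℝ) (hφ : ∀ o x, |φ o x| ≤ 1)
    (hE : ∀ i, ∀ k, k < M * t + M * t → (K * k) ^ (d i) ≤ E) :
    |𝔼 k ∈ Ico (M * t) (M * t + M * t), ∑ x ∈ range (M * m), lex (M * m) (φ none) (x : ℤ) *
        ∏ i, lex (M * m) (φ (some i)) ((x : ℤ) + ((K * k) ^ (d i) : ℕ)) -
      (M * m : ℕ) * lfm d K M φ| ≤ E := by
  have hM : 0 < M := Nat.pos_of_ne_zero (NeZero.ne M)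
  have hM' : (M : ℝ) ≠ 0 := by exact_mod_cast hM.ne'
  have hmain : ∀ k ∈ Ico (M * t) (M * t + M * t),
      |∑ x ∈ range (M * m), lex (M * m) (φ none) (x : ℤ) *
        ∏ i, lex (M * m) (φ (some i)) ((x : ℤ) + ((K * k) ^ (d i) : ℕ)) -
       (M * m : ℕ) * 𝔼 ρ : ZMod M, ∏ o, φ o (ρ + sh d ((K : ZMod M) * (k : ZMod M)) o)| ≤ E := by
    intro k hk
    rw [mem_Ico] at hk
    have h0 : ((M * m : ℕ) : ℝ) * 𝔼 ρ : ZMod M, ∏ o, φ o (ρ + sh d ((K : ZMod M) * (k : ZMod M)) o)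
        = ∑ x ∈ range (M * m),
          ∏ o, φ o ((x : ZMod M) + sh d ((K : ZMod M) * (k : ZMod M)) o) := by
      rw [sum_range_mul m (fun ρ => ∏ o, φ o (ρ + sh d ((K : ZMod M) * (k : ZMod M)) o)),
        Finset.expect_eq_sum_div_card, Finset.card_univ, ZMod.card]
      push_cast
      field_simp
    rw [h0]
    refine sum_close _ _ ?_ ?_
    · intro x hx hxE
      rw [Fintype.prod_option, lex_nat_lt _ hx]
      congr 1
      · simp [sh]
      · refine Finset.prod_congr rfl ?_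
        intro i _
        have h1 : x + (K * k) ^ (d i) < M * m := lt_of_le_of_lt
          (Nat.add_le_add_left (hE i k hk.2) x) hxE
        have h2 : (x : ℤ) + ((K * k) ^ (d i) : ℕ) = ((x + (K * k) ^ (d i) : ℕ) : ℤ) := by
          push_cast; ring
        rw [h2, lex_nat_lt _ h1]
        simp [sh]
    · intro x hx
      by_cases hall : ∀ i, x + (K * k) ^ (d i) < M * m
      · have he : lex (M * m) (φ none) (x : ℤ) *
            ∏ i, lex (M * m) (φ (some i)) ((x : ℤ) + ((K * k) ^ (d i) : ℕ)) =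
            ∏ o, φ o ((x : ZMod M) + sh d ((K : ZMod M) * (k : ZMod M)) o) := by
          rw [Fintype.prod_option, lex_nat_lt _ hx]
          congr 1
          · simp [sh]
          · refine Finset.prod_congr rfl ?_
            intro i _
            have h2 : (x : ℤ) + ((K * k) ^ (d i) : ℕ) = ((x + (K * k) ^ (d i) : ℕ) : ℤ) := by
              push_cast; ring
            rw [h2, lex_nat_lt _ (hall i)]
            simp [sh]
        rw [he]
        simp
      · push Not at hall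
        obtain ⟨i, hi⟩ := hall
        have h2 : (x : ℤ) + ((K * k) ^ (d i) : ℕ) = ((x + (K * k) ^ (d i) : ℕ) : ℤ) := by
          push_cast; ring
        have hz : ∏ i, lex (M * m) (φ (some i)) ((x : ℤ) + ((K * k) ^ (d i) : ℕ)) = 0 := by
          refine Finset.prod_eq_zero (mem_univ i) ?_
          rw [h2, lex_nat_ge _ hi]
        rw [hz, mul_zero, zero_sub, abs_neg]
        exact abs_prod_le_one _ _ (fun o _ => hφ o _)
  have hlfm : lfm d K M φ = 𝔼 k ∈ Ico (M * t) (M * t + M * t),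
      𝔼 ρ : ZMod M, ∏ o, φ o (ρ + sh d ((K : ZMod M) * (k : ZMod M)) o) := by
    unfold lfm
    rw [Finset.expect_comm, expect_Ico_mul ht
      (fun κ : ZMod M => 𝔼 ρ : ZMod M, ∏ o, φ o (ρ + sh d ((K : ZMod M) * κ) o))]
  have hne : (Ico (M * t) (M * t + M * t)).Nonempty := by
    rw [Finset.nonempty_Ico]
    have : 0 < M * t := Nat.mul_pos hM ht
    omega
  rw [hlfm, Finset.mul_expect, ← Finset.expect_sub_distrib]
  refine (Finset.abs_expect_le _ _).trans ?_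
  exact Finset.expect_le hne hmain

/-- averages along progressions of the extension by zero -/
private lemma ap_close {M : ℕ} [NeZero M] (m q E : ℕ) (hE : q * M ≤ E) (ψ : ZMod M → ℝ)
    (hψ : ∀ x, |ψ x| ≤ 1) :
    ∑ x ∈ range (M * m), |𝔼 a ∈ range M, lex (M * m) ψ ((x : ℤ) + (q * a : ℕ))| ≤
      (M * m : ℕ) * 𝔼 x : ZMod M, |𝔼 a : ZMod M, ψ (x + (q : ZMod M) * a)| + E := by
  have hM : 0 < M := Nat.pos_of_ne_zero (NeZero.ne M)
  have hM' : (M : ℝ) ≠ 0 := by exact_mod_cast hM.ne'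
  have hz : ∀ (x : ℕ), 𝔼 a ∈ range M, ψ ((x : ZMod M) + (q : ZMod M) * (a : ZMod M)) =
      𝔼 a : ZMod M, ψ ((x : ZMod M) + (q : ZMod M) * a) := by
    intro x
    have := expect_Ico_mul (M := M) (t := 1) le_rfl
      (fun a : ZMod M => ψ ((x : ZMod M) + (q : ZMod M) * a))
    rw [← this, Finset.expect_eq_sum_div_card, Finset.expect_eq_sum_div_card,
      Finset.sum_Ico_eq_sum_range, Nat.card_Ico, Finset.card_range]
    simp
  have h0 : ((M * m : ℕ) : ℝ) * 𝔼 x : ZMod M, |𝔼 a : ZMod M, ψ (x + (q : ZMod M) * a)| =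
      ∑ x ∈ range (M * m), |𝔼 a : ZMod M, ψ ((x : ZMod M) + (q : ZMod M) * a)| := by
    rw [sum_range_mul m (fun x : ZMod M => |𝔼 a : ZMod M, ψ (x + (q : ZMod M) * a)|),
        Finset.expect_eq_sum_div_card, Finset.card_univ, ZMod.card]
    push_cast
    field_simp
  rw [h0]
  have hle1 : ∀ (x : ℤ), |𝔼 a ∈ range M, lex (M * m) ψ (x + (q * a : ℕ))| ≤ 1 := by
    intro x
    refine (Finset.abs_expect_le _ _).trans ?_
    exact Finset.expect_le ⟨0, mem_range.2 hM⟩ (fun a _ => lex_abs ψ hψ _)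
  have hle2 : ∀ (x : ZMod M), |𝔼 a : ZMod M, ψ (x + (q : ZMod M) * a)| ≤ 1 := by
    intro x
    refine (Finset.abs_expect_le _ _).trans ?_
    exact Finset.expect_le ⟨(0 : ZMod M), mem_univ _⟩ (fun a _ => hψ _)
  have hc := sum_close (Z := M * m) (E := E)
    (fun x : ℕ => |𝔼 a ∈ range M, lex (M * m) ψ ((x : ℤ) + (q * a : ℕ))|)
    (fun x : ℕ => |𝔼 a : ZMod M, ψ ((x : ZMod M) + (q : ZMod M) * a)|) ?_ ?_
  · have := (abs_le.1 hc).2
    linarith
  · intro x hx hxE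
    show |𝔼 a ∈ range M, lex (M * m) ψ ((x : ℤ) + (q * a : ℕ))| =
      |𝔼 a : ZMod M, ψ ((x : ZMod M) + (q : ZMod M) * a)|
    rw [← hz x]
    congr 1
    refine Finset.expect_congr rfl ?_
    intro a ha
    rw [mem_range] at ha
    have h1 : x + q * a < M * m := by
      have : q * a ≤ q * M := Nat.mul_le_mul_left q ha.le
      omega
    have h2 : (x : ℤ) + (q * a : ℕ) = ((x + q * a : ℕ) : ℤ) := by push_cast; ring
    rw [h2, lex_nat_lt _ h1]
    push_cast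
    rfl
  · intro x _
    have e1 := hle1 x
    have e2 := hle2 x
    have e3 := abs_nonneg (𝔼 a ∈ range M, lex (M * m) ψ ((x : ℤ) + (q * a : ℕ)))
    have e4 := abs_nonneg (𝔼 a : ZMod M, ψ ((x : ZMod M) + (q : ZMod M) * a))
    rw [abs_le]
    constructor
    · linarith
    · linarith

/-- the theorem over residues follows from the theorem on the integers -/
theorem local_thm_of (s : ℕ) (d : Fin (s + 1) → ℕ) (hd2 : ∀ i, 2 ≤ d i) (hP : ThmP s d) :
    ∃ C : ℕ, ∀ δ : ℝ, 0 < δ → δ ≤ 1 / 2 →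
    ∀ K : ℕ, 1 ≤ K → (K : ℝ) ≤ δ⁻¹ → ∀ (M : ℕ) [NeZero M] (φ : Option (Fin (s + 1)) → ZMod M → ℝ),
    (∀ o x, |φ o x| ≤ 1) → δ ≤ |lfm d K M φ| →
    ∃ q : ℕ, 1 ≤ q ∧ (q : ℝ) ≤ δ⁻¹ ^ C ∧ ∀ o,
      δ ^ C ≤ 𝔼 x : ZMod M, |𝔼 a : ZMod M, φ o (x + (q : ZMod M) * a)| := by
  obtain ⟨x0, hx0, C1, σ, hσ, D0, H⟩ := hP (1 / 8) (by norm_num)
  refine ⟨2 * C1 + 1, ?_⟩
  intro δ hδ hδ2 K hK hKδ M _ φ hφ hlow
  have hM : 0 < M := Nat.pos_of_ne_zero (NeZero.ne M)
  have hM1 : 1 ≤ M := hM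
  set δ' : ℝ := δ / 2 with hδ'
  have hδ'0 : 0 < δ' := by positivity
  have hδ'1 : δ' ≤ 1 / 2 := by linarith
  -- the threshold
  have htend : Filter.Tendsto (fun x : ℝ => x ^ (-σ)) Filter.atTop (nhds 0) :=
    tendsto_rpow_neg_atTop hσ
  have hev : ∀ᶠ x : ℝ in Filter.atTop, x ^ (-σ) ≤ δ' :=
    (htend.eventually (gt_mem_nhds hδ'0)).mono (fun x hx => hx.le)
  obtain ⟨X0, hX0⟩ := Filter.eventually_atTop.1 hev
  obtain ⟨t, ht⟩ := exists_nat_ge (max (max D0 X0) (max 1 (δ'⁻¹ ^ C1)))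
  have ht1 : D0 ≤ t := (le_max_left _ _).trans ((le_max_left _ _).trans ht)
  have ht2 : X0 ≤ t := (le_max_right _ _).trans ((le_max_left _ _).trans ht)
  have ht3 : (1 : ℝ) ≤ t := (le_max_left _ _).trans ((le_max_right _ _).trans ht)
  have ht4 : δ'⁻¹ ^ C1 ≤ t := (le_max_right _ _).trans ((le_max_right _ _).trans ht)
  have ht5 : 1 ≤ t := by exact_mod_cast ht3
  have hnt : t ≤ M * t := Nat.le_mul_of_pos_left t hM
  have hnt' : (t : ℝ) ≤ ((M * t : ℕ) : ℝ) := by exact_mod_cast hnt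
  have hn1 : 1 ≤ M * t := ht5.trans hnt
  have hn1' : (1 : ℝ) ≤ ((M * t : ℕ) : ℝ) := by exact_mod_cast hn1
  -- the length
  set E : ℕ := ∑ i, (K * (3 * (M * t))) ^ (d i) with hE
  obtain ⟨B, hB⟩ := exists_nat_ge (max 1 (max (2 / δ) (2 * δ'⁻¹ ^ C1)))
  have hB1 : (1 : ℝ) ≤ B := (le_max_left _ _).trans hB
  have hB2 : 2 / δ ≤ (B : ℝ) := (le_max_left _ _).trans ((le_max_right _ _).trans hB)
  have hB3 : 2 * δ'⁻¹ ^ C1 ≤ (B : ℝ) := (le_max_right _ _).trans ((le_max_right _ _).trans hB)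
  have hB1' : 1 ≤ B := by exact_mod_cast hB1
  have hEi : ∀ i, (K * (3 * (M * t))) ^ (d i) ≤ E := by
    intro i
    exact Finset.single_le_sum (f := fun i => (K * (3 * (M * t))) ^ (d i))
      (fun j _ => Nat.zero_le _) (mem_univ i)
  have hKn : 1 ≤ K * (3 * (M * t)) := by
    have : 1 ≤ 3 * (M * t) := by omega
    exact Nat.one_le_iff_ne_zero.2 (Nat.mul_ne_zero (by omega) (by omega))
  have hEn : M * t ≤ E := by
    refine le_trans ?_ (hEi 0)
    calc M * t ≤ K * (3 * (M * t)) := by nlinarith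
      _ = (K * (3 * (M * t))) ^ 1 := (pow_one _).symm
      _ ≤ (K * (3 * (M * t))) ^ (d 0) := Nat.pow_le_pow_right hKn (by have := hd2 0; omega)
  have hE1 : 1 ≤ E := hn1.trans hEn
  have hm : 1 ≤ E * B := Nat.one_le_iff_ne_zero.2 (Nat.mul_ne_zero (by omega) (by omega))
  set m : ℕ := E * B with hmdef
  have hEZ : E ≤ M * m := by
    calc E = E * 1 := (mul_one _).symm
      _ ≤ E * B := Nat.mul_le_mul_left _ hB1'
      _ ≤ M * m := Nat.le_mul_of_pos_left _ hM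
  have hEB : (E : ℝ) * B ≤ ((M * m : ℕ) : ℝ) := by
    have : E * B ≤ M * m := Nat.le_mul_of_pos_left _ hM
    exact_mod_cast this
  have hE0 : (0 : ℝ) < E := by exact_mod_cast hE1
  have hshift : ∀ i, ∀ k, k < M * t + M * t → (K * k) ^ (d i) ≤ E := by
    intro i k hk
    exact (Nat.pow_le_pow_left (Nat.mul_le_mul_left K (by omega)) _).trans (hEi i)
  have hclose := form_close d K M t E m ht5 hm φ hφ hshift
  -- the lower bound
  have hlow' : δ' * ((M * m : ℕ) : ℝ) ≤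
      |𝔼 k ∈ Ico (M * t) (M * t + M * t), ∑ x ∈ range (M * m), lex (M * m) (φ none) (x : ℤ) *
        ∏ i, lex (M * m) (φ (some i)) ((x : ℤ) + ((K * k) ^ (d i) : ℕ))| := by
    have h1 : δ * ((M * m : ℕ) : ℝ) ≤ |((M * m : ℕ) : ℝ) * lfm d K M φ| := by
      rw [abs_mul, abs_of_nonneg (Nat.cast_nonneg (M * m)), mul_comm]
      exact mul_le_mul_of_nonneg_left hlow (Nat.cast_nonneg _)
    have h2 : (E : ℝ) ≤ δ' * ((M * m : ℕ) : ℝ) := by
      have h3 : (E : ℝ) = δ' * (E * (2 / δ)) := by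
        rw [hδ']; field_simp
      rw [h3]
      refine mul_le_mul_of_nonneg_left ?_ hδ'0.le
      exact (mul_le_mul_of_nonneg_left hB2 hE0.le).trans hEB
    have h4 := abs_sub_abs_le_abs_sub (((M * m : ℕ) : ℝ) * lfm d K M φ)
      (𝔼 k ∈ Ico (M * t) (M * t + M * t), ∑ x ∈ range (M * m), lex (M * m) (φ none) (x : ℤ) *
        ∏ i, lex (M * m) (φ (some i)) ((x : ℤ) + ((K * k) ^ (d i) : ℕ)))
    rw [abs_sub_comm] at h4
    have h5 : δ * ((M * m : ℕ) : ℝ) = 2 * (δ' * ((M * m : ℕ) : ℝ)) := by rw [hδ']; ring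
    linarith
  -- application of the theorem on the integers
  obtain ⟨q, hq1, hqC, hq0, hqi⟩ := H ((M * t : ℕ) : ℝ) K (M * t) (M * t) (M * m)
    (ht1.trans hnt') le_rfl (by linarith)
    (by
      calc ((M * t : ℕ) : ℝ) ^ (1 - x0) ≤ ((M * t : ℕ) : ℝ) ^ (1 : ℝ) :=
            Real.rpow_le_rpow_of_exponent_le hn1' (by linarith)
        _ = _ := Real.rpow_one _)
    hK
    (by
      intro i
      have h1 : (((K * (3 * (M * t))) ^ (d i) : ℕ) : ℝ) ≤ ((M * m : ℕ) : ℝ) := by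
        exact_mod_cast (hEi i).trans hEZ
      refine le_trans (le_of_eq ?_) h1
      push_cast
      ring)
    δ' (hX0 _ (ht2.trans hnt')) hδ'1
    (hKδ.trans (by
      rw [hδ']
      exact inv_anti₀ (by positivity) (by linarith)))
    (fun x => ((lex (M * m) (φ none) x : ℝ) : ℂ))
    (fun i x => ((lex (M * m) (φ (some i)) x : ℝ) : ℂ))
    (fun x => by rw [Complex.norm_real, Real.norm_eq_abs]; exact lex_abs _ (hφ none) x)
    (fun i x => by rw [Complex.norm_real, Real.norm_eq_abs]; exact lex_abs _ (hφ (some i)) x)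
    (by
      intro x hx
      have hz : ∀ ψ : ZMod M → ℝ, lex (M * m) ψ x = 0 := by
        intro ψ
        unfold lex
        rw [if_neg]
        rintro ⟨h1, h2⟩
        rcases hx with h | h
        · exact absurd h1 (not_le.2 h)
        · exact absurd h2 (not_lt.2 h)
      refine ⟨?_, ?_⟩
      · rw [hz]; simp
      · intro i
        rw [hz]; simp)
    (by
      refine hlow'.trans (le_of_eq ?_)
      rw [← Real.norm_eq_abs, ← Complex.norm_real, Complex.ofReal_expect]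
      congr 1
      refine Finset.expect_congr rfl ?_
      intro k _
      push_cast
      rfl)
  have hqt : q ≤ t := by
    have : (q : ℝ) ≤ t := hqC.trans ht4
    exact_mod_cast this
  have hqM : q * M ≤ M * t := by
    rw [mul_comm q M]
    exact Nat.mul_le_mul_left M hqt
  have hLq : ∀ i, ((M : ℕ) : ℝ) * q ≤ ((M * t : ℕ) : ℝ) ^ ((d i : ℝ) - 1 / 8) := by
    intro i
    have h1 : ((M : ℕ) : ℝ) * q ≤ ((M * t : ℕ) : ℝ) := by
      have : M * q ≤ M * t := Nat.mul_le_mul_left M hqt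
      exact_mod_cast this
    refine h1.trans ?_
    calc ((M * t : ℕ) : ℝ) = ((M * t : ℕ) : ℝ) ^ (1 : ℝ) := (Real.rpow_one _).symm
      _ ≤ _ := Real.rpow_le_rpow_of_exponent_le hn1' (by
        have : (2 : ℝ) ≤ d i := by exact_mod_cast hd2 i
        linarith)
  have hall : ∀ o, δ' ^ C1 * ((M * m : ℕ) : ℝ) ≤
      ∑ x ∈ range (M * m), |𝔼 a ∈ range M, lex (M * m) (φ o) ((x : ℤ) + (q * a : ℕ))| := by
    have hnorm : ∀ o (x : ℕ),
        ‖𝔼 a ∈ range M, ((lex (M * m) (φ o) ((x : ℤ) + (q * a : ℕ)) : ℝ) : ℂ)‖ =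
        |𝔼 a ∈ range M, lex (M * m) (φ o) ((x : ℤ) + (q * a : ℕ))| := by
      intro o x
      rw [← Complex.ofReal_expect, Complex.norm_real, Real.norm_eq_abs]
    intro o
    cases o with
    | none =>
      have := hq0 M hM1 (hLq 0)
      refine this.trans (le_of_eq ?_)
      exact Finset.sum_congr rfl (fun x _ => hnorm none x)
    | some i =>
      have := hqi i M hM1 (hLq i)
      refine this.trans (le_of_eq ?_)
      exact Finset.sum_congr rfl (fun x _ => hnorm (some i) x)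
  have hδδ : δ ^ 2 ≤ δ' := by rw [hδ']; nlinarith
  refine ⟨q, hq1, ?_, ?_⟩
  · have h1 : δ'⁻¹ ≤ δ⁻¹ ^ 2 := by
      rw [inv_pow]
      exact inv_anti₀ (by positivity) hδδ
    have h2 : (1 : ℝ) ≤ δ⁻¹ := by
      rw [one_le_inv₀ hδ]; linarith
    calc (q : ℝ) ≤ δ'⁻¹ ^ C1 := hqC
      _ ≤ (δ⁻¹ ^ 2) ^ C1 := pow_le_pow_left₀ (by positivity) h1 _
      _ = δ⁻¹ ^ (2 * C1) := by rw [pow_mul]
      _ ≤ δ⁻¹ ^ (2 * C1 + 1) := pow_le_pow_right₀ h2 (by omega)
  · intro o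
    have h1 := (hall o).trans (ap_close m q (M * t) hqM (φ o) (hφ o))
    set A : ℝ := 𝔼 x : ZMod M, |𝔼 a : ZMod M, φ o (x + (q : ZMod M) * a)| with hA
    set Z : ℝ := ((M * m : ℕ) : ℝ) with hZ
    have hZ0 : 0 < Z := lt_of_lt_of_le (by positivity) hEB
    have h2 : ((M * t : ℕ) : ℝ) ≤ δ' ^ C1 / 2 * Z := by
      have h3 : ((M * t : ℕ) : ℝ) ≤ E := by exact_mod_cast hEn
      have h4 : (E : ℝ) = δ' ^ C1 / 2 * (E * (2 * δ'⁻¹ ^ C1)) := by
        rw [inv_pow]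
        have : δ' ^ C1 ≠ 0 := by positivity
        field_simp
      refine h3.trans ?_
      rw [h4]
      refine mul_le_mul_of_nonneg_left ?_ (by positivity)
      exact (mul_le_mul_of_nonneg_left hB3 hE0.le).trans hEB
    have h5 : δ' ^ C1 / 2 * Z ≤ A * Z := by linarith [mul_comm A Z]
    have h6 : δ' ^ C1 / 2 ≤ A := le_of_mul_le_mul_right h5 hZ0
    refine le_trans ?_ h6
    calc δ ^ (2 * C1 + 1) = (δ ^ 2) ^ C1 * δ := by rw [pow_succ, pow_mul]
      _ ≤ δ' ^ C1 * (1 / 2) := mul_le_mul (pow_le_pow_left₀ (by positivity) hδδ _) hδ2 hδ.le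
        (by positivity)
      _ = δ' ^ C1 / 2 := by ring

end

end Pool.Agent.Helper67.NX2
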